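import Pool.Agent.V7H26.Codeg.Core

/-!
# The codegree density of the complete `k`-graph on `k + 1` vertices need not be `1/2`

We show that the codegree Turán density of `K_7^6` is at least `4/7`.
-/

namespace Pool.Agent.Results.MP_af2786_co.CodegreeDensityH26

open Finset Filter

/-- A `k`-graph on the vertex set `V`: a set of `k`-element subsets of `V`. -/
structure KGraph (k : ℕ) (V : Type) where
  /-- the set of edges -/
  edges : Set (Finset V)
  /-- every edge has `k` elements -/
  uniform : ∀ e ∈ edges, e.card = k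

/-- `H` contains a copy of `F`: some injection of vertex sets sends every edge to an edge. -/
def Contains {k : ℕ} {V W : Type} (H : KGraph k V) (F : KGraph k W) : Prop :=
  ∃ f : W ↪ V, ∀ e ∈ F.edges, e.map f ∈ H.edges

/-- The complete `k`-graph on `t` vertices. -/
def complete (k t : ℕ) : KGraph k (Fin t) where
  edges := {e | e.card = k}
  uniform := fun _ h => h

/-- The codegree of a set `T` of vertices: the number of `v ∉ T` with `T ∪ {v}` an edge. -/
noncomputable def codegree {k n : ℕ} (H : KGraph k (Fin n)) (T : Finset (Fin n)) : ℕ :=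
  Set.ncard {v : Fin n | v ∉ T ∧ insert v T ∈ H.edges}

/-- The minimum codegree: the least codegree of a `(k-1)`-set of vertices. -/
noncomputable def minCodegree {k n : ℕ} (H : KGraph k (Fin n)) : ℕ :=
  sInf {d | ∃ T : Finset (Fin n), T.card + 1 = k ∧ codegree H T = d}

/-- `exCodegree n F`: the largest minimum codegree of an `F`-free `k`-graph on `n` vertices. -/
noncomputable def exCodegree {k : ℕ} {W : Type} (n : ℕ) (F : KGraph k W) : ℕ :=
  sSup {d | ∃ H : KGraph k (Fin n), ¬ Contains H F ∧ minCodegree H = d}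

/-- The codegree Turán density of `F`. -/
noncomputable def codegreeDensity {k : ℕ} {W : Type} (F : KGraph k W) : ℝ :=
  limsup (fun n : ℕ => (exCodegree n F : ℝ) / n) atTop

theorem codegree_le {k n : ℕ} (H : KGraph k (Fin n)) (T : Finset (Fin n)) :
    codegree H T ≤ n := by
  unfold codegree
  refine (Set.ncard_le_card _).trans ?_
  simp

theorem minCodegree_le {k n : ℕ} (H : KGraph k (Fin n)) : minCodegree H ≤ n := by
  unfold minCodegree
  by_cases h : ∃ T : Finset (Fin n), T.card + 1 = k
  · obtain ⟨T, hT⟩ := h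
    have hmem : codegree H T ∈ {d | ∃ T : Finset (Fin n), T.card + 1 = k ∧ codegree H T = d} :=
      ⟨T, hT, rfl⟩
    exact (Nat.sInf_le hmem).trans (codegree_le H T)
  · have : {d | ∃ T : Finset (Fin n), T.card + 1 = k ∧ codegree H T = d} = ∅ := by
      refine Set.eq_empty_of_forall_notMem ?_
      rintro d ⟨T, hT, _⟩
      exact h ⟨T, hT⟩
    rw [this]
    simp

theorem bdd {k : ℕ} {W : Type} (n : ℕ) (F : KGraph k W) :
    BddAbove {d | ∃ H : KGraph k (Fin n), ¬ Contains H F ∧ minCodegree H = d} := by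
  refine ⟨n, ?_⟩
  rintro d ⟨H, _, rfl⟩
  exact minCodegree_le H

theorem exCodegree_le {k : ℕ} {W : Type} (n : ℕ) (F : KGraph k W) : exCodegree n F ≤ n := by
  unfold exCodegree
  refine csSup_le' ?_
  rintro d ⟨H, _, rfl⟩
  exact minCodegree_le H

open Pool.Agent.V7H26.Codeg in
theorem lower (m K : ℕ) (hm : 1 ≤ m) (hmK : m ≤ 2 * K) (y : ℝ) (hy : 0 ≤ y)
    (hlt : (49 * ((7 * m : ℕ) : ℝ) ^ 5) * (1 + y / 2) ^ m < (1 + y) ^ (K + 1)) :
    7 * m ≤ exCodegree (7 * m) (complete 6 7) + 5 + 6 * K := by
  classical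
  let c : Fin (7 * m) → Fin 7 := fun v => (finProdFinEquiv.symm v).1
  have hfib : ∀ u, (univ.filter fun v => c v = u).card ≤ m := by
    intro u
    have h1 : (univ.filter fun v => c v = u).card ≤
        (univ.filter fun p : Fin 7 × Fin m => p.1 = u).card := by
      refine Finset.card_le_card_of_injOn (fun v => finProdFinEquiv.symm v) ?_ ?_
      · intro v hv
        simp only [Finset.coe_filter, Finset.mem_univ, true_and, Set.mem_ofPred_eq] at hv ⊢
        exact hv
      · intro a _ b _ h
        exact finProdFinEquiv.symm.injective h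
    refine h1.trans ?_
    have h2 : (univ.filter fun p : Fin 7 × Fin m => p.1 = u) ⊆ ({u} : Finset (Fin 7)) ×ˢ univ := by
      intro p hp
      simp only [Finset.mem_filter, Finset.mem_univ, true_and] at hp
      exact Finset.mem_product.mpr ⟨by rw [hp]; exact Finset.mem_singleton_self u,
        Finset.mem_univ _⟩
    refine (Finset.card_le_card h2).trans ?_
    simp
  obtain ⟨lam, hlam⟩ := exists_lam c m K y hy hfib hlt
  let H : KGraph 6 (Fin (7 * m)) :=
    { edges := {A | A.card = 6 ∧ ¬ Non c lam A}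
      uniform := fun _ h => h.1 }
  have hfree : ¬ Contains H (complete 6 7) := by
    rintro ⟨f, hf⟩
    obtain ⟨x, hx, hN⟩ := cover c lam (B := univ.map f) (by simp)
    obtain ⟨i, _, rfl⟩ := Finset.mem_map.mp hx
    have he : (univ.erase i).map f ∈ H.edges := by
      apply hf
      show (univ.erase i).card = 6
      rw [Finset.card_erase_of_mem (Finset.mem_univ i)]
      simp
    rw [Finset.map_erase] at he
    exact he.2 hN
  have hcod : ∀ T : Finset (Fin (7 * m)), T.card = 5 → 7 * m ≤ codegree H T + 5 + 6 * K := by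
    intro T hT
    have hd := degree c lam hT hmK hfib (fun u t => by
      convert hlam T hT u t)
    have hc : codegree H T = (univ.filter fun v => v ∉ T ∧ ¬ Non c lam (insert v T)).card := by
      unfold codegree
      rw [← Set.ncard_coe_finset]
      congr 1
      ext v
      simp only [Set.mem_ofPred_eq, Finset.coe_filter, Finset.mem_univ, true_and]
      constructor
      · rintro ⟨h1, h2⟩
        exact ⟨h1, h2.2⟩
      · rintro ⟨h1, h2⟩
        exact ⟨h1, by rw [Finset.card_insert_of_notMem h1, hT], h2⟩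
    have htot : (univ.filter fun v => v ∉ T ∧ ¬ Non c lam (insert v T)).card +
        (univ.filter fun v => v ∉ T ∧ Non c lam (insert v T)).card + T.card = 7 * m := by
      have h1 : (univ.filter fun v => v ∉ T ∧ ¬ Non c lam (insert v T)).card +
          (univ.filter fun v => v ∉ T ∧ Non c lam (insert v T)).card =
          (univ.filter fun v => v ∉ T).card := by
        rw [← Finset.filter_filter, ← Finset.filter_filter, add_comm]
        exact Finset.card_filter_add_card_filter_not _
      have h2 : (univ.filter fun v => v ∉ T).card + T.card = 7 * m := by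
        have : (univ.filter fun v => v ∉ T) = Tᶜ := by
          ext v
          simp
        rw [this, Finset.card_compl]
        simp only [Fintype.card_fin]
        have : T.card ≤ 7 * m := by
          simpa using Finset.card_le_univ T
        omega
      omega
    omega
  have hmin : 7 * m ≤ minCodegree H + 5 + 6 * K := by
    have hne : {d | ∃ T : Finset (Fin (7 * m)), T.card + 1 = 6 ∧ codegree H T = d}.Nonempty := by
      obtain ⟨T, _, hT⟩ := Finset.exists_subset_card_eq (s := (univ : Finset (Fin (7 * m))))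
        (n := 5) (by simp; omega)
      exact ⟨_, T, by omega, rfl⟩
    obtain ⟨T, hT, hTd⟩ := Nat.sInf_mem hne
    have := hcod T (by omega)
    unfold minCodegree
    omega
  have hle : minCodegree H ≤ exCodegree (7 * m) (complete 6 7) :=
    le_csSup (bdd _ _) ⟨H, hfree, rfl⟩
  omega

theorem eventually_lower (ε : ℝ) (hε : 0 < ε) :
    ∀ᶠ m : ℕ in atTop, 4 / 7 - ε ≤ (exCodegree (7 * m) (complete 6 7) : ℝ) / (7 * m : ℕ) := by
  have h1 : (1 : ℝ) < 1 + 4 * ε := by linarith
  have hpos : (0 : ℝ) < 1 + 4 * ε := by linarith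
  set r : ℝ := (1 + 4 * ε / 2) / (1 + 4 * ε) ^ (1 / 2 + ε) with hr
  have hden : (0 : ℝ) < (1 + 4 * ε) ^ (1 / 2 + ε) := Real.rpow_pos_of_pos hpos _
  have hr0 : 0 ≤ r := by positivity
  have hr1 : r < 1 := by
    rw [hr, div_lt_one hden]
    have hsq : (1 + 4 * ε / 2) ^ 2 < ((1 + 4 * ε) ^ (1 / 2 + ε)) ^ 2 := by
      rw [← Real.rpow_natCast ((1 + 4 * ε) ^ (1 / 2 + ε)) 2, ← Real.rpow_mul hpos.le]
      have hb := one_add_mul_self_le_rpow_one_add (s := 4 * ε) (by linarith)
        (p := (1 / 2 + ε) * (2 : ℕ)) (by push_cast; linarith)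
      refine lt_of_lt_of_le ?_ hb
      push_cast
      nlinarith [mul_pos hε hε]
    exact lt_of_pow_lt_pow_left₀ 2 hden.le hsq
  have htend := tendsto_pow_const_mul_const_pow_of_abs_lt_one 5
    (r := r) (by rw [abs_of_nonneg hr0]; exact hr1)
  have htend2 : Tendsto (fun m : ℕ => (49 * 7 ^ 5 : ℝ) * ((m : ℝ) ^ 5 * r ^ m)) atTop (nhds 0) := by
    simpa using htend.const_mul (49 * 7 ^ 5 : ℝ)
  have hev1 : ∀ᶠ m : ℕ in atTop, (49 * 7 ^ 5 : ℝ) * ((m : ℝ) ^ 5 * r ^ m) < 1 :=
    htend2.eventually (gt_mem_nhds one_pos)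
  have hev2 : ∀ᶠ m : ℕ in atTop, 1 ≤ ε * (m : ℝ) := by
    obtain ⟨N, hN⟩ := exists_nat_gt (1 / ε)
    filter_upwards [eventually_ge_atTop N] with m hm
    have : (1 / ε) < m := lt_of_lt_of_le hN (by exact_mod_cast hm)
    rw [div_lt_iff₀ hε] at this
    linarith
  have hev3 : ∀ᶠ m : ℕ in atTop, 5 ≤ ε * (m : ℝ) := by
    obtain ⟨N, hN⟩ := exists_nat_gt (5 / ε)
    filter_upwards [eventually_ge_atTop N] with m hm
    have : (5 / ε) < m := lt_of_lt_of_le hN (by exact_mod_cast hm)
    rw [div_lt_iff₀ hε] at this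
    linarith
  filter_upwards [hev1, hev2, hev3, eventually_ge_atTop 1] with m hm1 hm2 hm3 hm4
  have hmpos : (0 : ℝ) < m := by exact_mod_cast (by omega : 0 < m)
  set K : ℕ := ⌊(1 / 2 + ε) * (m : ℝ)⌋₊ with hK
  have hK1 : (K : ℝ) ≤ (1 / 2 + ε) * m := Nat.floor_le (by positivity)
  have hK2 : (1 / 2 + ε) * (m : ℝ) < K + 1 := Nat.lt_floor_add_one _
  have hmK : m ≤ 2 * K := by
    have : (m : ℝ) ≤ 2 * K := by nlinarith
    exact_mod_cast this
  have hlt : (49 * ((7 * m : ℕ) : ℝ) ^ 5) * (1 + (4 * ε) / 2) ^ m < (1 + 4 * ε) ^ (K + 1) := by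
    have e1 : (1 + 4 * ε) ^ ((1 / 2 + ε) * (m : ℝ)) ≤ (1 + 4 * ε) ^ (K + 1) := by
      rw [← Real.rpow_natCast (1 + 4 * ε) (K + 1)]
      refine Real.rpow_le_rpow_of_exponent_le h1.le ?_
      push_cast
      exact hK2.le
    refine lt_of_lt_of_le ?_ e1
    rw [Real.rpow_mul hpos.le, Real.rpow_natCast]
    have e2 : (1 + 4 * ε / 2) ^ m = r ^ m * ((1 + 4 * ε) ^ (1 / 2 + ε)) ^ m := by
      rw [← mul_pow, hr, div_mul_cancel₀ _ hden.ne']
    rw [e2]
    have e3 : (49 * ((7 * m : ℕ) : ℝ) ^ 5) * (r ^ m * ((1 + 4 * ε) ^ (1 / 2 + ε)) ^ m) =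
        ((49 * 7 ^ 5 : ℝ) * ((m : ℝ) ^ 5 * r ^ m)) * ((1 + 4 * ε) ^ (1 / 2 + ε)) ^ m := by
      push_cast
      ring
    rw [e3]
    have e4 : (0 : ℝ) < ((1 + 4 * ε) ^ (1 / 2 + ε)) ^ m := pow_pos hden m
    nlinarith
  have hlow := lower m K hm4 hmK (4 * ε) (by linarith) hlt
  have hlow' : (7 * m : ℝ) ≤ (exCodegree (7 * m) (complete 6 7) : ℝ) + 5 + 6 * K := by
    exact_mod_cast hlow
  rw [le_div_iff₀ (by push_cast; positivity)]
  push_cast
  nlinarith

/-- The codegree Turán density of `K_7^6` is at least `4/7`; in particular it is not true that the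
codegree Turán density of `K_{k+1}^k` equals `1/2` for every `k ≥ 2`. -/
theorem result : (4 / 7 : ℝ) ≤ codegreeDensity (complete 6 7) ∧
    ¬ ∀ k : ℕ, 2 ≤ k → codegreeDensity (complete k (k + 1)) = 1 / 2 := by
  have h : (4 / 7 : ℝ) ≤ codegreeDensity (complete 6 7) := by
    refine le_of_forall_pos_sub_le fun ε hε => ?_
    unfold codegreeDensity
    refine le_limsup_of_frequently_le ?_ ?_
    · have hev := (eventually_lower ε hε).frequently
      have ht : Tendsto (fun m : ℕ => 7 * m) atTop atTop :=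
        tendsto_id.const_mul_atTop' (by norm_num)
      exact ht.frequently hev
    · refine ⟨1, ?_⟩
      rw [eventually_map]
      refine Eventually.of_forall fun n => ?_
      have h1 : (exCodegree n (complete 6 7) : ℝ) ≤ n := by
        exact_mod_cast exCodegree_le n _
      exact div_le_one_of_le₀ h1 (by positivity)
  refine ⟨h, fun hall => ?_⟩
  have h6 := hall 6 (by norm_num)
  have h7 : codegreeDensity (complete 6 7) = 1 / 2 := h6
  rw [h7] at h
  norm_num at h

end Pool.Agent.Results.MP_af2786_co.CodegreeDensityH26
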